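import Mathlib

namespace Pool.Agent.Results.MP_f664e7_co.Q1

open List

/-- Two words have the same relative order. -/
def SameOrder (p s : List ℕ+) : Prop :=
  p.length = s.length ∧ ∀ i j, i < p.length → j < p.length →
    (p.getD i 1 < p.getD j 1 ↔ s.getD i 1 < s.getD j 1)

/-- A cyclic permutation statistic: a function of the rotation class that takes the same value on
permutations with the same relative order. -/
def IsStat {β : Type} (cst : Cycle ℕ+ → β) : Prop :=
  ∀ p s : List ℕ+, p.Nodup → s.Nodup → SameOrder p s → cst p = cst s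

/-- The set of cyclic shuffles of `[p]` and `[s]`. -/
def Sh (p s : List ℕ+) : Set (Cycle ℕ+) :=
  {c | ∃ t : List ℕ+, c = (t : Cycle ℕ+) ∧ t.Nodup ∧ t.length = p.length + s.length ∧
    (∃ p', p' ~r p ∧ p' <+ t) ∧ (∃ s', s' ~r s ∧ s' <+ t)}

/-- Cyclic shuffle-compatibility: every value has the same multiplicity in both distributions. -/
def Compatible {β : Type} (cst : Cycle ℕ+ → β) : Prop :=
  ∀ p s p' s' : List ℕ+, p.Nodup → s.Nodup → p.Disjoint s → p'.Nodup → s'.Nodup → p'.Disjoint s' →
    cst p = cst p' → cst s = cst s' → p.length = p'.length → s.length = s'.length →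
    ∀ v, {c ∈ Sh p s | cst c = v}.encard = {c ∈ Sh p' s' | cst c = v}.encard

/-- The cyclic descent set of a word (positions numbered from `0`). -/
def cDes (p : List ℕ+) : Finset ℕ :=
  (Finset.range p.length).filter (fun i => p.getD ((i + 1) % p.length) 1 < p.getD i 1)

/-- The multiset of the cyclic descent sets of all rotations. -/
def cDesC (c : Cycle ℕ+) : Multiset (Finset ℕ) := c.lists.map cDes

/-- sum of `g` over all pairs of positions `i < j` -/
def S (g : ℕ+ → ℕ+ → ZMod 2) : List ℕ+ → ZMod 2
  | [] => 0
  | a :: l => (l.map (g a)).sum + S g l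

def gt (a b : ℕ+) : ZMod 2 := if b < a then 1 else 0

lemma gt_add {a b : ℕ+} (h : a ≠ b) : gt a b + gt b a = 1 := by
  unfold gt
  rcases lt_or_gt_of_ne h with h | h
  · simp [h, h.not_gt]
  · simp [h, h.not_gt]

lemma two (x : ZMod 2) : x + x = 0 := by revert x; decide

lemma S_perm {g} (hg : ∀ a b, g a b = g b a) {l l' : List ℕ+} (h : l ~ l') : S g l = S g l' := by
  induction h with
  | nil => rfl
  | cons a h ih => simp only [S, ih, (h.map _).sum_eq]
  | swap a b l => simp only [S, map_cons, sum_cons, hg a b]; ring
  | trans _ _ ih1 ih2 => exact ih1.trans ih2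

lemma S_map (f : ℕ+ → ℕ+) (l : List ℕ+) :
    S gt (l.map f) + S gt l = S (fun a b => gt (f a) (f b) + gt a b) l := by
  induction l with
  | nil => simp [S]
  | cons a l ih =>
    simp only [S, map_cons, map_map, ← ih, sum_map_add, Function.comp_def]; ring

lemma S_map_perm (f : Equiv.Perm ℕ+) {l l' : List ℕ+} (h : l ~ l') :
    S gt (l.map f) + S gt l = S gt (l'.map f) + S gt l' := by
  rw [S_map, S_map]
  apply S_perm _ h
  intro a b
  by_cases e : a = b
  · rw [e]
  · have h1 := gt_add e
    have h2 := gt_add (f.injective.ne e)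
    have h3 := two (gt (f b) (f a) + gt b a)
    have h4 := two 1
    linear_combination h1 + h2 - h3 + h4

lemma S_move (a : ℕ+) (l v : List ℕ+) (h : a ∉ l) :
    S gt (l ++ a :: v) = S gt (a :: (l ++ v)) + l.length := by
  induction l with
  | nil => simp
  | cons b l ih =>
    have hb : a ≠ b := fun e => h (e ▸ mem_cons_self)
    have ih := ih (fun e => h (mem_cons_of_mem _ e))
    have h1 := gt_add hb
    have h2 := two (gt a b)
    simp only [S, cons_append, map_cons, sum_cons, map_append, sum_append, length_cons] at ih ⊢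
    push_cast
    linear_combination ih + h1 - h2

lemma S_pre (u : List ℕ+) {w w' : List ℕ+} (h : w ~ w') :
    S gt (u ++ w) + S gt w' = S gt (u ++ w') + S gt w := by
  induction u with
  | nil => simp [add_comm]
  | cons b u ih =>
    simp only [S, cons_append, map_append, sum_append, (h.map _).sum_eq]
    linear_combination ih

def sg (l : List ℕ+) : ZMod 2 := if l.Nodup ∧ Odd l.length then S gt l else 0

lemma cast_even {n : ℕ} (h : Even n) : (n : ZMod 2) = 0 := by
  obtain ⟨k, rfl⟩ := h; push_cast; exact two _

lemma cast_odd {n : ℕ} (h : Odd n) : (n : ZMod 2) = 1 := by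
  obtain ⟨k, rfl⟩ := h; push_cast; linear_combination two (k : ZMod 2)

lemma sg_rot1 (l : List ℕ+) : sg (l.rotate 1) = sg l := by
  unfold sg
  simp only [nodup_rotate, length_rotate]
  split_ifs with h
  · cases l with
    | nil => rfl
    | cons a l =>
      rw [rotate_cons_succ, rotate_zero, S_move a l [] (nodup_cons.1 h.1).1, append_nil,
        cast_even, add_zero]
      have := h.2
      rw [length_cons, Nat.odd_add_one, Nat.not_odd_iff_even] at this
      exact this
  · rfl

lemma sg_rot (l : List ℕ+) (n : ℕ) : sg (l.rotate n) = sg l := by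
  induction n with
  | zero => rw [rotate_zero]
  | succ n ih => rw [← rotate_rotate, sg_rot1, ih]

/-- The statistic: the parity of the number of inversions for odd length, and `0` for even
length. -/
def cst (c : Cycle ℕ+) : ZMod 2 :=
  Quotient.lift (s := IsRotated.setoid ℕ+) sg
    (fun a b (h : a ~r b) => by obtain ⟨n, rfl⟩ := h; exact (sg_rot a n).symm) c

lemma cst_coe (l : List ℕ+) : cst l = sg l := rfl

lemma S_same : ∀ (p s : List ℕ+), SameOrder p s → S gt p = S gt s
  | [], [], _ => rfl
  | [], _ :: _, h => by simpa using h.1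
  | _ :: _, [], h => by simpa using h.1
  | a :: p, b :: s, h => by
    have hl : p.length = s.length := by simpa using h.1
    have ih := S_same p s ⟨hl, fun i j hi hj => by
      simpa using h.2 (i + 1) (j + 1) (by simpa using hi) (by simpa using hj)⟩
    simp only [S, ih]
    congr 2
    apply ext_getElem (by simpa using hl)
    intro i h1 h2
    have h1' : i < p.length := by simpa using h1
    have h2' : i < s.length := by simpa using h2
    have := h.2 (i + 1) 0 (by simpa using h1') (by simp)
    simp only [getD_cons_succ, getD_cons_zero, getD_eq_getElem _ _ h1', getD_eq_getElem _ _ h2']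
      at this
    simp only [getElem_map, gt, this]

lemma ex_perm {l l' : List ℕ+} (h : l.Nodup) (h' : l'.Nodup) (e : l.length = l'.length) :
    ∃ f : Equiv.Perm ℕ+, l.map f = l' := by
  obtain ⟨f, hf⟩ := Equiv.Perm.exists_extending_pair (f := l.get)
    (g := fun i => l'.get (i.cast e)) (nodup_iff_injective_get.1 h)
    ((nodup_iff_injective_get.1 h').comp (Fin.cast_injective e))
  refine ⟨f, ext_getElem (by simpa using e) fun i h1 h2 => ?_⟩
  simpa using hf ⟨i, by simpa using h1⟩

lemma choose {p s p' s' : List ℕ+} (n : (p ++ s).Nodup) (n' : (p' ++ s').Nodup)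
    (hp : cst p = cst p') (hs : cst s = cst s') (lp : p.length = p'.length)
    (ls : s.length = s'.length) :
    ∃ p'' s'', p'' ~r p' ∧ s'' ~r s' ∧ sg (p'' ++ s'') = sg (p ++ s) := by
  by_cases e : sg (p' ++ s') = sg (p ++ s)
  · exact ⟨p', s', IsRotated.refl _, IsRotated.refl _, e⟩
  have ho : Odd (p'.length + s'.length) := by
    by_contra hc
    apply e
    simp [sg, lp, ls, hc]
  have key : ∀ x y : ZMod 2, x ≠ y → x + 1 = y := by decide
  have e' := key _ _ e
  rw [← e']
  have hsg : ∀ w, w ~ p' ++ s' → sg w = S gt w := fun w hw => by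
    unfold sg
    rw [if_pos ⟨hw.nodup_iff.2 n', by rw [hw.length_eq, length_append]; exact ho⟩]
  rw [hsg _ (Perm.refl _)]
  rcases Nat.even_or_odd p'.length with h | h
  · cases p' with
    | nil =>
      rw [length_nil, length_eq_zero_iff] at lp
      subst lp
      exact absurd hs.symm e
    | cons a l =>
      have r : l ++ [a] ~r a :: l := IsRotated.symm ⟨1, by simp⟩
      refine ⟨l ++ [a], s', r, IsRotated.refl _, ?_⟩
      rw [hsg _ (r.perm.append_right _), append_assoc, singleton_append,
        S_move a l s' (nodup_cons.1 (n'.of_append_left)).1, cast_odd, cons_append]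
      rw [length_cons, Nat.even_add_one, Nat.not_even_iff_odd] at h
      exact h
  · have h2 : Even s'.length := (Nat.odd_add.1 ho).1 h
    cases s' with
    | nil =>
      rw [length_nil, length_eq_zero_iff] at ls
      subst ls
      simp only [append_nil] at e
      exact absurd hp.symm e
    | cons a l =>
      have r : l ++ [a] ~r a :: l := IsRotated.symm ⟨1, by simp⟩
      refine ⟨p', l ++ [a], IsRotated.refl _, r, ?_⟩
      rw [hsg _ (r.perm.append_left _)]
      have h3 := S_pre p' r.perm
      have h4 := S_move a l [] (nodup_cons.1 (n'.of_append_right)).1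
      rw [length_cons, Nat.even_add_one, Nat.not_even_iff_odd] at h2
      rw [append_nil, cast_odd h2] at h4
      linear_combination h3 + h4

lemma le_card {p s p' s' : List ℕ+} (n : (p ++ s).Nodup) (n' : (p' ++ s').Nodup)
    (hp : cst p = cst p') (hs : cst s = cst s') (lp : p.length = p'.length)
    (ls : s.length = s'.length) (v : ZMod 2) :
    {c ∈ Sh p s | cst c = v}.encard ≤ {c ∈ Sh p' s' | cst c = v}.encard := by
  obtain ⟨p'', s'', r1, r2, e⟩ := choose n n' hp hs lp ls
  have n'' : (p'' ++ s'').Nodup := (r1.perm.append r2.perm).nodup_iff.2 n'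
  have l1 : p.length = p''.length := lp.trans r1.perm.length_eq.symm
  have l2 : s.length = s''.length := ls.trans r2.perm.length_eq.symm
  obtain ⟨f, hf⟩ := ex_perm n n'' (by simp [l1, l2])
  have hf' := hf
  rw [map_append] at hf'
  obtain ⟨f1, f2⟩ := append_inj hf' (by simpa using l1)
  apply Set.encard_le_encard_of_injOn (f := Cycle.map f)
  · rintro c ⟨⟨t, rfl, nt, lt, ⟨a, ra, sa⟩, ⟨b, rb, sb⟩⟩, hv⟩
    have nt' : (t.map f).Nodup := nt.map f.injective
    refine ⟨⟨t.map f, rfl, nt', by simp [lt, lp, ls],
      ⟨a.map f, (f1 ▸ ra.map f).trans r1, sa.map f⟩, ⟨b.map f, (f2 ▸ rb.map f).trans r2, sb.map f⟩⟩, ?_⟩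
    have pt : p ++ s ~ t := by
      apply Subperm.perm_of_length_le (subperm_of_subset n _) (by simp [lt])
      intro x hx
      rcases mem_append.1 hx with hx | hx
      · exact sa.subset (ra.perm.mem_iff.2 hx)
      · exact sb.subset (rb.perm.mem_iff.2 hx)
    have h1 := S_map_perm f pt
    rw [hf] at h1
    rw [← hv]
    change sg (t.map f) = sg t
    unfold sg at e ⊢
    rw [length_map]
    by_cases ho : Odd t.length
    · rw [if_pos ⟨n'', by rw [length_append, ← l1, ← l2, ← lt]; exact ho⟩,
        if_pos ⟨n, by rw [length_append, ← lt]; exact ho⟩] at e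
      rw [if_pos ⟨nt', ho⟩, if_pos ⟨nt, ho⟩]
      have h2 := two (S gt (p ++ s))
      have h3 := two (S gt t)
      linear_combination -h1 + e + h2 - h3
    · simp [ho]
  · intro c _ d _ h
    induction c using Quotient.inductionOn' with | h a => ?_
    induction d using Quotient.inductionOn' with | h b => ?_
    have h' : a.map f ~r b.map f := Quotient.exact h
    have h2 := h'.map f.symm
    simp only [map_map, Equiv.symm_comp_self, map_id] at h2
    exact Quotient.sound h2

theorem result : ∃ cst : Cycle ℕ+ → ZMod 2, IsStat cst ∧ Compatible cst ∧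
    ∃ p s : List ℕ+, p.Nodup ∧ s.Nodup ∧ p.length = s.length ∧ cDesC p = cDesC s ∧
      cst p ≠ cst s := by
  refine ⟨cst, ?_, ?_, [1, 2, 4, 5, 3], [1, 3, 4, 5, 2], by decide, by decide, rfl, by decide,
    by decide⟩
  · intro p s np ns h
    simp only [cst_coe, sg, np, ns, h.1, S_same p s h]
  · intro p s p' s' h1 h2 h3 h4 h5 h6 hp hs lp ls v
    have n := h1.append h2 h3
    have n' := h4.append h5 h6
    exact le_antisymm (le_card n n' hp hs lp ls v) (le_card n' n hp.symm hs.symm lp.symm ls.symm v)

end Pool.Agent.Results.MP_f664e7_co.Q1
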